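import Pool.Agent.Helper69.ST.GoalsR

/-! # Project ST, packet FB: the filled domain has a Lipschitz boundary -/

set_option autoImplicit false

open MeasureTheory Set Complex Metric Filter
open scoped ContDiff Topology ENNReal

namespace Pool.Agent.Helper17.ST.FB

open Pool.Agent.Helper45.Stek Pool.Agent.Helper69.ST

theorem t (hOC : Pool.Agent.Helper69.ST.S_OC) (hFA : Pool.Agent.Helper69.ST.S_FA)
    (hLC : Pool.Agent.Helper69.ST.S_LC) : Pool.Agent.Helper69.ST.S_FB := by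
  intro Ω hΩ p hp
  obtain ⟨-, -, hout, -, hC⟩ := hOC Ω hΩ.bdd
  obtain ⟨-, -, -, -, -, hfr1, hfr2⟩ := hFA Ω hΩ.isOpen hΩ.bdd
  have hp1 := hfr1 hp
  have hp2 := hfr2 hp1
  obtain ⟨a, ρ, r, L, g, ha, hρ, hρr, -, hg, hN, hpN, hst, hconn⟩ := hLC Ω hΩ p hp2 1 one_pos
  refine ⟨a, ρ, L, g, ha, hρ, hg, fun s t hs ht => ?_⟩
  have ht' : |t| < r := lt_of_lt_of_le ht hρr
  obtain ⟨-, -, h3⟩ := hst s t hs ht'
  have hz : p + a * (s + t * I) ∈ Box p a ρ r := ⟨s, t, hs, ht', rfl⟩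
  have hsub : Box p a ρ r \ closure Ω ⊆ outerC Ω := by
    refine hC _ hconn ?_ (fun z hz => hz.2)
    have hcl : p ∈ closure (outerC Ω) := frontier_subset_closure hp1
    obtain ⟨z, hzN, hzO⟩ := mem_closure_iff.1 hcl _ hN hpN
    exact ⟨z, ⟨hzN, hout z hzO⟩, hzO⟩
  have hiff : p + a * (s + t * I) ∈ closure (outerC Ω) ↔
      p + a * (s + t * I) ∈ closure (Box p a ρ r \ closure Ω) := by
    constructor
    · intro h
      have h1 : p + a * (s + t * I) ∈ closure (Box p a ρ r ∩ outerC Ω) :=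
        hN.inter_closure ⟨hz, h⟩
      refine closure_mono ?_ h1
      intro z hz
      exact ⟨hz.1, hout z hz.2⟩
    · intro h
      exact closure_mono hsub h
  have h4 : p + a * (s + t * I) ∈ fill Ω ↔ p + a * (s + t * I) ∉ closure (outerC Ω) := Iff.rfl
  rw [h4, hiff, h3, not_le]

end Pool.Agent.Helper17.ST.FB
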